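import Mathlib

set_option autoImplicit false

open MeasureTheory Set Filter Topology

namespace Pool.Agent.Lib.helper9

variable {E : Type*} [NormedAddCommGroup E] [NormedSpace ℝ E] [FiniteDimensional ℝ E]
  [MeasurableSpace E] [BorelSpace E] (μ : Measure E) [μ.IsAddHaarMeasure]

theorem integral_det_id_add_small {h : E → E} (hh : ContDiff ℝ 1 h) (hc : HasCompactSupport h)
    {K : Set E} (hK : IsCompact K) (hs : tsupport h ⊆ K) :
    ∃ ε > 0, ∀ t : ℝ, |t| < ε →
      ∫ x in K, (ContinuousLinearMap.id ℝ E + t • fderiv ℝ h x).det ∂μ = μ.real K := by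
  obtain ⟨L, hL⟩ := ContDiff.lipschitzWith_of_hasCompactSupport hc hh (by simp)
  have hdet : Continuous (fun A : E →L[ℝ] E => A.det) := ContinuousLinearMap.continuous_det
  have h1 : ∀ᶠ A in 𝓝 (ContinuousLinearMap.id ℝ E), 0 < A.det := by
    apply hdet.continuousAt.eventually (lt_mem_nhds _)
    simp [ContinuousLinearMap.det]
  obtain ⟨δ, hδ, hδ'⟩ := Metric.eventually_nhds_iff.1 h1
  refine ⟨min δ 1 / (L + 1), by positivity, fun t ht => ?_⟩
  have hL0 : (0 : ℝ) ≤ L := L.2
  have htL : |t| * L < min δ 1 := by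
    rw [lt_div_iff₀ (by positivity)] at ht
    nlinarith [abs_nonneg t]
  have hdiff : Differentiable ℝ h := hh.differentiable (by simp)
  set g : E → E := fun x => x + t • h x with hg
  have hg' : ∀ x, HasFDerivAt g (ContinuousLinearMap.id ℝ E + t • fderiv ℝ h x) x := fun x =>
    (hasFDerivAt_id x).add ((hdiff x).hasFDerivAt.const_smul t)
  have happ : ApproximatesLinearOn g
      ((ContinuousLinearEquiv.refl ℝ E : E ≃L[ℝ] E) : E →L[ℝ] E) univ (‖t‖₊ * L) := by
    intro x _ y _
    have : g x - g y - (x - y) = t • (h x - h y) := by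
      simp only [hg, smul_sub]; abel
    simp only [ContinuousLinearEquiv.coe_refl, ContinuousLinearMap.id_apply]
    rw [this, norm_smul]
    have := hL.norm_sub_le x y
    push_cast
    rw [mul_assoc]
    gcongr
  have hc' : Subsingleton E ∨ ‖t‖₊ * L <
      ‖(((ContinuousLinearEquiv.refl ℝ E : E ≃L[ℝ] E).symm : E ≃L[ℝ] E) : E →L[ℝ] E)‖₊⁻¹ := by
    rcases subsingleton_or_nontrivial E with hE | hE
    · exact Or.inl hE
    · right
      have : ‖(((ContinuousLinearEquiv.refl ℝ E : E ≃L[ℝ] E).symm : E ≃L[ℝ] E) : E →L[ℝ] E)‖₊ = 1 := by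
        simp
      rw [this, inv_one, ← NNReal.coe_lt_coe]
      push_cast
      exact lt_of_lt_of_le htL (min_le_right _ _)
  have hinj : Function.Injective g := by
    have := happ.injOn hc'
    exact fun x y hxy => this (mem_univ x) (mem_univ y) hxy
  have hsurj : Function.Surjective g := happ.surjective hc'
  have hout : ∀ x, x ∉ K → g x = x := by
    intro x hx
    have : h x = 0 := image_eq_zero_of_notMem_tsupport (fun h' => hx (hs h'))
    simp [hg, this]
  have himg : g '' K = K := by
    ext y
    constructor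
    · rintro ⟨x, hx, rfl⟩
      by_contra hy
      have h2 : g x = x := hinj (hout _ hy)
      exact hy (by rw [h2]; exact hx)
    · intro hy
      obtain ⟨x, rfl⟩ := hsurj y
      refine ⟨x, ?_, rfl⟩
      by_contra hx
      rw [hout x hx] at hy
      exact hx hy
  have key := integral_image_eq_integral_abs_det_fderiv_smul μ hK.measurableSet
    (fun x _ => (hg' x).hasFDerivWithinAt) hinj.injOn (fun _ => (1 : ℝ))
  rw [himg] at key
  simp only [integral_const, MeasurableSet.univ, measureReal_restrict_apply, univ_inter,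
    smul_eq_mul, mul_one] at key
  rw [key]
  refine integral_congr_ae (Eventually.of_forall fun x => ?_)
  simp only
  rw [abs_of_pos]
  apply hδ'
  rw [dist_eq_norm, add_sub_cancel_left, norm_smul]
  have : ‖fderiv ℝ h x‖ ≤ L := norm_fderiv_le_of_lipschitz ℝ hL
  calc ‖t‖ * ‖fderiv ℝ h x‖ ≤ |t| * L := by rw [Real.norm_eq_abs]; gcongr
    _ < δ := lt_of_lt_of_le htL (min_le_left _ _)

omit [MeasurableSpace E] [BorelSpace E] in
theorem exists_det_interp (s : ℕ → ℝ) (hs : Function.Injective s) :
    ∃ w : ℕ → ℝ, ∀ A : E →L[ℝ] E,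
      A.det = ∑ j ∈ Finset.range (Module.finrank ℝ E + 1),
        w j * (s j • ContinuousLinearMap.id ℝ E + A).det := by
  classical
  refine ⟨fun j => (Lagrange.basis (Finset.range (Module.finrank ℝ E + 1)) s j).eval 0,
    fun A => ?_⟩
  set p := LinearMap.charpoly (-(A : E →ₗ[ℝ] E)) with hp
  have hev : ∀ t : ℝ, p.eval t = (t • ContinuousLinearMap.id ℝ E + A).det := by
    intro t
    rw [hp, LinearMap.eval_charpoly]
    simp only [ContinuousLinearMap.det]
    congr 1
    ext x
    simp
  have hdeg : p.degree < (Finset.range (Module.finrank ℝ E + 1)).card := by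
    rw [Finset.card_range]
    have h1 : p.natDegree = Module.finrank ℝ E := LinearMap.charpoly_natDegree _
    refine lt_of_le_of_lt Polynomial.degree_le_natDegree ?_
    rw [h1]
    exact_mod_cast Nat.lt_succ_self _
  have := Lagrange.eq_interpolate (v := s) hs.injOn hdeg
  have h0 := congrArg (Polynomial.eval 0) this
  rw [hev 0, Lagrange.interpolate_apply, Polynomial.eval_finsetSum] at h0
  simp only [zero_smul, zero_add] at h0
  rw [h0]
  refine Finset.sum_congr rfl fun j _ => ?_
  rw [Polynomial.eval_mul, Polynomial.eval_C, hev, mul_comm]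

theorem integral_det_eq_of_hasCompactSupport {h₁ h₂ : E → E} (hh₁ : ContDiff ℝ 1 h₁)
    (hc₁ : HasCompactSupport h₁) (hh₂ : ContDiff ℝ 1 h₂) (hc₂ : HasCompactSupport h₂)
    {K : Set E} (hK : IsCompact K) (hs₁ : tsupport h₁ ⊆ K) (hs₂ : tsupport h₂ ⊆ K) :
    ∫ x in K, (fderiv ℝ h₁ x).det ∂μ = ∫ x in K, (fderiv ℝ h₂ x).det ∂μ := by
  obtain ⟨ε₁, hε₁, H₁⟩ := integral_det_id_add_small μ hh₁ hc₁ hK hs₁
  obtain ⟨ε₂, hε₂, H₂⟩ := integral_det_id_add_small μ hh₂ hc₂ hK hs₂
  set ε := min ε₁ ε₂ with hε
  have hε0 : 0 < ε := lt_min hε₁ hε₂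
  set s : ℕ → ℝ := fun j => (j + 2) / ε with hs
  have hsinj : Function.Injective s := by
    intro a b hab
    simp only [hs] at hab
    rw [div_left_inj' hε0.ne'] at hab
    exact_mod_cast add_right_cancel hab
  have hspos : ∀ j, 0 < s j := fun j => by simp only [hs]; positivity
  have hsinv : ∀ j, |(s j)⁻¹| < ε := by
    intro j
    rw [abs_of_pos (inv_pos.2 (hspos j))]
    simp only [hs, inv_div]
    rw [div_lt_iff₀ (by positivity)]
    have : (0 : ℝ) ≤ j := Nat.cast_nonneg j
    nlinarith
  obtain ⟨w, hw⟩ := exists_det_interp (E := E) s hsinj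
  have hdet : Continuous (fun A : E →L[ℝ] E => A.det) := ContinuousLinearMap.continuous_det
  have hsc : ∀ (j : ℕ) (A : E →L[ℝ] E), (s j • ContinuousLinearMap.id ℝ E + A).det =
      s j ^ Module.finrank ℝ E * (ContinuousLinearMap.id ℝ E + (s j)⁻¹ • A).det := by
    intro j A
    have : s j • ContinuousLinearMap.id ℝ E + A =
        s j • (ContinuousLinearMap.id ℝ E + (s j)⁻¹ • A) := by
      rw [smul_add, smul_smul, mul_inv_cancel₀ (hspos j).ne', one_smul]
    rw [this]
    simp only [ContinuousLinearMap.det, ContinuousLinearMap.toLinearMap_smul, LinearMap.det_smul]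
  have main : ∀ h : E → E, ContDiff ℝ 1 h →
      (∀ j, ∫ x in K, (ContinuousLinearMap.id ℝ E + (s j)⁻¹ • fderiv ℝ h x).det ∂μ = μ.real K) →
      ∫ x in K, (fderiv ℝ h x).det ∂μ = ∑ j ∈ Finset.range (Module.finrank ℝ E + 1),
        w j * (s j ^ Module.finrank ℝ E * μ.real K) := by
    intro h hh H
    have hcont : Continuous (fderiv ℝ h) := hh.continuous_fderiv (by simp)
    have : ∀ x, (fderiv ℝ h x).det = ∑ j ∈ Finset.range (Module.finrank ℝ E + 1),
        w j * (s j ^ Module.finrank ℝ E *
          (ContinuousLinearMap.id ℝ E + (s j)⁻¹ • fderiv ℝ h x).det) := by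
      intro x
      rw [hw]
      exact Finset.sum_congr rfl fun j _ => by rw [hsc]
    simp_rw [this]
    rw [integral_finsetSum]
    · refine Finset.sum_congr rfl fun j _ => ?_
      rw [integral_const_mul, integral_const_mul, H]
    · intro j _
      apply ContinuousOn.integrableOn_compact hK
      apply Continuous.continuousOn
      have h3 : Continuous fun x => (s j)⁻¹ • fderiv ℝ h x := hcont.const_smul (s j)⁻¹
      exact continuous_const.mul (continuous_const.mul
        (hdet.comp (continuous_const.add h3)))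
  rw [main h₁ hh₁ (fun j => H₁ _ (lt_of_lt_of_le (hsinv j) (min_le_left _ _))),
    main h₂ hh₂ (fun j => H₂ _ (lt_of_lt_of_le (hsinv j) (min_le_right _ _)))]

/-- The integral of the Jacobian determinant over a compact set depends only on the map outside. -/
theorem integral_det_eq_of_eq_off {u v : E → E} (hu : ContDiff ℝ 1 u) (hv : ContDiff ℝ 1 v)
    {K : Set E} (hK : IsCompact K) (huv : ∀ x, x ∉ K → u x = v x) :
    ∫ x in K, (fderiv ℝ u x).det ∂μ = ∫ x in K, (fderiv ℝ v x).det ∂μ := by
  obtain ⟨R, hR⟩ := hK.isBounded.subset_ball (0 : E)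
  set R' := max R 1 with hR'
  have hR'0 : 0 < R' := lt_of_lt_of_le one_pos (le_max_right _ _)
  let b : ContDiffBump (0 : E) := ⟨R', R' + 1, hR'0, by linarith⟩
  have hb : ContDiff ℝ 1 b := b.contDiff
  have hbc : HasCompactSupport b := b.hasCompactSupport
  set K' : Set E := Metric.closedBall 0 (R' + 1) with hK'
  have hK'c : IsCompact K' := isCompact_closedBall _ _
  have hKK' : K ⊆ K' := fun x hx => by
    have := hR hx
    rw [Metric.mem_ball] at this
    rw [hK', Metric.mem_closedBall]
    linarith [le_max_left R 1]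
  have hsupp : ∀ f : E → E, tsupport (fun x => b x • f x) ⊆ K' := fun f => by
    refine (tsupport_smul_subset_left b f).trans ?_
    rw [b.tsupport_eq]
  have h1 := integral_det_eq_of_hasCompactSupport μ (hb.smul hu) (hbc.smul_right (f' := u))
    (hb.smul hv) (hbc.smul_right (f' := v)) hK'c (hsupp u) (hsupp v)
  have hdet : Continuous (fun A : E →L[ℝ] E => A.det) := ContinuousLinearMap.continuous_det
  have hint : ∀ f : E → E, ContDiff ℝ 1 f → ∀ S : Set E, IsCompact S →
      IntegrableOn (fun x => (fderiv ℝ f x).det) S μ := fun f hf S hS =>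
    ContinuousOn.integrableOn_compact hS
      (hdet.comp (hf.continuous_fderiv (by simp))).continuousOn
  have hin : ∀ f : E → E, ∀ x ∈ K, fderiv ℝ (fun x => b x • f x) x = fderiv ℝ f x := by
    intro f x hx
    apply Filter.EventuallyEq.fderiv_eq
    have hx' : x ∈ Metric.ball (0 : E) R' :=
      Metric.ball_subset_ball (le_max_left _ _) (hR hx)
    filter_upwards [Metric.isOpen_ball.mem_nhds hx'] with y hy
    rw [b.one_of_mem_closedBall (Metric.ball_subset_closedBall hy), one_smul]
  have hoff : ∀ x, x ∉ K →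
      fderiv ℝ (fun x => b x • u x) x = fderiv ℝ (fun x => b x • v x) x := by
    intro x hx
    apply Filter.EventuallyEq.fderiv_eq
    filter_upwards [hK.isClosed.isOpen_compl.mem_nhds hx] with y hy
    rw [huv y hy]
  rw [← sub_eq_zero, ← integral_sub (hint _ (hb.smul hu) _ hK'c) (hint _ (hb.smul hv) _ hK'c),
    setIntegral_eq_of_subset_of_forall_sdiff_eq_zero hK'c.measurableSet hKK'] at h1
  · rw [← sub_eq_zero, ← integral_sub (hint _ hu _ hK) (hint _ hv _ hK), ← h1]
    refine setIntegral_congr_fun hK.measurableSet fun x hx => ?_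
    have e1 := hin u x hx
    have e2 := hin v x hx
    show (fderiv ℝ u x).det - (fderiv ℝ v x).det =
      (fderiv ℝ (fun x => b x • u x) x).det - (fderiv ℝ (fun x => b x • v x) x).det
    rw [e1, e2]
  · intro x hx
    have := hoff x hx.2
    exact sub_eq_zero.2 (congrArg _ this)

end Pool.Agent.Lib.helper9
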