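import Mathlib
import Pool.Agent.Lib.helper9.NullLag

set_option autoImplicit false

open MeasureTheory Set Filter Topology

namespace Pool.Agent.Lib.helper9

/-- A nondecreasing `C¹` function whose derivative is positive exactly on `(-δ, δ)`. -/
theorem exists_kappa (δ : ℝ) : ∃ κ : ℝ → ℝ, ContDiff ℝ 1 κ ∧
    ∀ t, HasDerivAt κ (max 0 (δ - |t|)) t := by
  have hb : Continuous fun t : ℝ => max 0 (δ - |t|) := by fun_prop
  have hd : ∀ t, HasDerivAt (fun u => ∫ x in (0 : ℝ)..u, max 0 (δ - |x|)) (max 0 (δ - |t|)) t :=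
    fun t => (hb.integral_hasStrictDerivAt 0 t).hasDerivAt
  refine ⟨_, ?_, hd⟩
  rw [contDiff_one_iff_deriv]
  refine ⟨fun t => (hd t).differentiableAt, ?_⟩
  have : deriv (fun u => ∫ x in (0 : ℝ)..u, max 0 (δ - |x|)) = fun t => max 0 (δ - |t|) :=
    funext fun t => (hd t).deriv
  rw [this]
  exact hb

/-- the real-linear map `w ↦ a Re w + b Im w i`. -/
noncomputable def diagC (a b : ℝ) : ℂ →L[ℝ] ℂ :=
  Complex.ofRealCLM.comp (a • Complex.reCLM) +
    Complex.I • Complex.ofRealCLM.comp (b • Complex.imCLM)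

theorem det_diagC (a b : ℝ) : (diagC a b).det = a * b := by
  rw [ContinuousLinearMap.det, ← LinearMap.det_toMatrix Complex.basisOneI, Matrix.det_fin_two]
  simp [LinearMap.toMatrix_apply, diagC]

theorem det_mulC (c : ℂ) :
    ((ContinuousLinearMap.toSpanSingleton ℂ c).restrictScalars ℝ : ℂ →L[ℝ] ℂ).det =
      Complex.normSq c := by
  rw [ContinuousLinearMap.det, ← LinearMap.det_toMatrix Complex.basisOneI, Matrix.det_fin_two]
  simp [LinearMap.toMatrix_apply, Complex.normSq_apply]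

theorem exists_psi {ι : Type*} [Fintype ι] (δ : ℝ) (hδ : 0 < δ) :
    ∃ ψ : (ι → ℂ) → (ι → ℂ), ContDiff ℝ 1 ψ ∧
      (∀ y, 0 ≤ (fderiv ℝ ψ y).det) ∧ (∀ y, δ ≤ ‖y‖ → (fderiv ℝ ψ y).det = 0) ∧
      (∀ y, ‖y‖ < δ / 2 → 0 < (fderiv ℝ ψ y).det) := by
  obtain ⟨κ, hκ, hκ'⟩ := exists_kappa (δ / 2)
  set ψ₁ : ℂ → ℂ := fun w => (κ w.re : ℂ) + Complex.I • (κ w.im : ℂ) with hψ₁
  have hψ₁c : ContDiff ℝ 1 ψ₁ := by
    have h1 : ContDiff ℝ 1 fun w : ℂ => ((κ w.re : ℝ) : ℂ) :=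
      Complex.ofRealCLM.contDiff.comp (hκ.comp Complex.reCLM.contDiff)
    have h2 : ContDiff ℝ 1 fun w : ℂ => ((κ w.im : ℝ) : ℂ) :=
      Complex.ofRealCLM.contDiff.comp (hκ.comp Complex.imCLM.contDiff)
    exact h1.add (h2.const_smul Complex.I)
  have hψ₁d : ∀ w, HasFDerivAt ψ₁
      (diagC (max 0 (δ / 2 - |w.re|)) (max 0 (δ / 2 - |w.im|))) w := by
    intro w
    have h1 : HasFDerivAt (fun w : ℂ => κ w.re) (max 0 (δ / 2 - |w.re|) • Complex.reCLM) w :=
      (hκ' w.re).comp_hasFDerivAt w Complex.reCLM.hasFDerivAt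
    have h2 : HasFDerivAt (fun w : ℂ => κ w.im) (max 0 (δ / 2 - |w.im|) • Complex.imCLM) w :=
      (hκ' w.im).comp_hasFDerivAt w Complex.imCLM.hasFDerivAt
    exact (Complex.ofRealCLM.hasFDerivAt.comp w h1).add
      ((Complex.ofRealCLM.hasFDerivAt.comp w h2).const_smul Complex.I)
  have hd : ∀ y : ι → ℂ, HasFDerivAt (fun (y : ι → ℂ) i => ψ₁ (y i))
      (ContinuousLinearMap.pi fun i =>
        (diagC (max 0 (δ / 2 - |(y i).re|)) (max 0 (δ / 2 - |(y i).im|))).comp
          (ContinuousLinearMap.proj i)) y := by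
    intro y
    rw [hasFDerivAt_pi]
    intro i
    exact HasFDerivAt.comp (f := fun f : ι → ℂ => f i) y (hψ₁d (y i)) (hasFDerivAt_apply i y)
  have hdet : ∀ y : ι → ℂ, (fderiv ℝ (fun (y : ι → ℂ) i => ψ₁ (y i)) y).det =
      ∏ i, (max 0 (δ / 2 - |(y i).re|)) * (max 0 (δ / 2 - |(y i).im|)) := by
    intro y
    rw [(hd y).fderiv, ContinuousLinearMap.det_pi]
    simp only [det_diagC]
  refine ⟨fun y i => ψ₁ (y i), ?_, ?_, ?_, ?_⟩
  · exact contDiff_pi.2 fun i => hψ₁c.comp (contDiff_apply ℝ ℂ i)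
  · intro y
    rw [hdet]
    exact Finset.prod_nonneg fun i _ => mul_nonneg (le_max_left _ _) (le_max_left _ _)
  · intro y hy
    rw [hdet]
    obtain ⟨i, hi⟩ : ∃ i, δ ≤ ‖y i‖ := by
      by_contra hcon
      push Not at hcon
      exact absurd ((pi_norm_lt_iff hδ).2 hcon) (not_lt.2 hy)
    refine Finset.prod_eq_zero (Finset.mem_univ i) ?_
    have := Complex.norm_le_abs_re_add_abs_im (y i)
    by_cases h1 : δ / 2 ≤ |(y i).re|
    · rw [max_eq_left (by linarith), zero_mul]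
    · rw [max_eq_left (a := 0) (b := δ / 2 - |(y i).im|) (by linarith), mul_zero]
  · intro y hy
    rw [hdet]
    refine Finset.prod_pos fun i _ => ?_
    have h0 := norm_le_pi_norm y i
    have h1 := Complex.abs_re_le_norm (y i)
    have h2 := Complex.abs_im_le_norm (y i)
    exact mul_pos (lt_max_of_lt_right (by linarith)) (lt_max_of_lt_right (by linarith))

theorem det_fderiv_sigma {ι : Type*} [Fintype ι] (k : ι → ℕ) (z : ι → ℂ) :
    (fderiv ℝ (fun (z : ι → ℂ) i => z i ^ k i) z).det =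
      ∏ i, Complex.normSq ((k i : ℂ) * z i ^ (k i - 1)) := by
  have hd : HasFDerivAt (fun (z : ι → ℂ) i => z i ^ k i)
      (ContinuousLinearMap.pi fun i =>
        (((ContinuousLinearMap.toSpanSingleton ℂ ((k i : ℂ) * z i ^ (k i - 1))).restrictScalars ℝ :
          ℂ →L[ℝ] ℂ)).comp (ContinuousLinearMap.proj i)) z := by
    rw [hasFDerivAt_pi]
    intro i
    exact ((hasDerivAt_pow (k i) (z i)).hasFDerivAt.restrictScalars ℝ).comp z
      (hasFDerivAt_apply i z)
  rw [hd.fderiv, ContinuousLinearMap.det_pi]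
  simp only [det_mulC]

/-- One perturbation step. -/
theorem perturb_step {ι : Type*} [Fintype ι] (k : ι → ℕ)
    (G : (ι → ℂ) → (ι → ℂ)) (hG : ContDiff ℝ 1 G)
    (hGe : ∀ c : ℂ, ‖c‖ = 1 → ∀ z i, G (c • z) i = c ^ k i * G z i)
    (η : (ι → ℂ) → ℝ) (hη : ContDiff ℝ 1 η) (hηi : ∀ c : ℂ, ‖c‖ = 1 → ∀ z, η (c • z) = η z)
    (j : ι) : ∃ y : ι → ℂ, ∀ z, η z ≠ 0 → z j ≠ 0 →
      ∃ i, G z i ≠ (η z : ℂ) * z j ^ k i * y i := by
  classical
  set T : (ι → ℂ) → (ι → ℂ) := fun z i => G z i / ((η z : ℂ) * z j ^ k i) with hT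
  set A : Set (ι → ℂ) := {z | η z ≠ 0 ∧ z j ≠ 0 ∧ (z j).im = 0} with hA
  let L : (ι → ℂ) →ₗ[ℝ] ℝ := Complex.imLm.comp (LinearMap.proj j)
  have hL : LinearMap.ker L ≠ ⊤ := by
    intro h
    have : (Pi.single j Complex.I : ι → ℂ) ∈ LinearMap.ker L := h ▸ Submodule.mem_top
    simp [L] at this
  have hA0 : volume A = 0 := by
    refine measure_mono_null ?_ (Measure.addHaar_submodule volume _ hL)
    intro z hz
    simpa [L] using hz.2.2
  have hTd : DifferentiableOn ℝ T A := by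
    intro z hz
    apply DifferentiableAt.differentiableWithinAt
    rw [differentiableAt_pi]
    intro i
    have h1 : DifferentiableAt ℝ (fun z => G z i) z :=
      differentiableAt_pi.1 (hG.differentiable (by simp) z) i
    have h2 : DifferentiableAt ℝ (fun z => (η z : ℂ)) z :=
      Complex.ofRealCLM.differentiableAt.comp z (hη.differentiable (by simp) z)
    have h3 : DifferentiableAt ℝ (fun z : ι → ℂ => z j ^ k i) z :=
      (differentiableAt_apply j z).pow _
    have h4 : (η z : ℂ) * z j ^ k i ≠ 0 :=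
      mul_ne_zero (by exact_mod_cast hz.1) (pow_ne_zero _ hz.2.1)
    simp only [hT, div_eq_mul_inv]
    exact h1.mul ((h2.mul h3).inv h4)
  have h0 := addHaar_image_eq_zero_of_differentiableOn_of_addHaar_eq_zero volume hTd hA0
  have hne : (T '' A)ᶜ.Nonempty := by
    rw [nonempty_compl]
    intro h
    rw [h] at h0
    exact (isOpen_univ.measure_ne_zero volume univ_nonempty) h0
  obtain ⟨y, hy⟩ := hne
  refine ⟨y, fun z hz hzj => ?_⟩
  by_contra hcon
  push Not at hcon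
  apply hy
  have hn : (‖z j‖ : ℂ) ≠ 0 := by exact_mod_cast norm_ne_zero_iff.2 hzj
  set c : ℂ := (‖z j‖ : ℂ) / z j with hc
  have hc1 : ‖c‖ = 1 := by
    rw [hc, norm_div, Complex.norm_real, norm_norm, div_self (norm_ne_zero_iff.2 hzj)]
  have hc0 : c ≠ 0 := div_ne_zero hn hzj
  have hcz : (c • z) j = (‖z j‖ : ℂ) := by
    simp only [Pi.smul_apply, smul_eq_mul, hc]
    field_simp
  refine ⟨c • z, ⟨by rwa [hηi c hc1], by rw [hcz]; exact hn, by rw [hcz]; simp⟩, ?_⟩
  funext i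
  simp only [hT]
  rw [hGe c hc1, hηi c hc1, hcon i, Pi.smul_apply, smul_eq_mul, mul_pow]
  have : (η z : ℂ) ≠ 0 := by exact_mod_cast hz
  field_simp

theorem perturb {ι : Type*} [Fintype ι] (k : ι → ℕ) (hk : ∀ i, 0 < k i)
    (G₀ : (ι → ℂ) → (ι → ℂ)) (hG : ContDiff ℝ 1 G₀)
    (hGe : ∀ c : ℂ, ‖c‖ = 1 → ∀ z i, G₀ (c • z) i = c ^ k i * G₀ z i)
    (η : (ι → ℂ) → ℝ) (hη : ContDiff ℝ 1 η) (hηi : ∀ c : ℂ, ‖c‖ = 1 → ∀ z, η (c • z) = η z)
    (S : Finset ι) : ∃ G : (ι → ℂ) → (ι → ℂ), ContDiff ℝ 1 G ∧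
      (∀ c : ℂ, ‖c‖ = 1 → ∀ z i, G (c • z) i = c ^ k i * G z i) ∧
      (∀ z, η z = 0 → G z = G₀ z) ∧ (∀ z, η z ≠ 0 → G z = 0 → ∀ j ∈ S, z j = 0) := by
  classical
  induction S using Finset.induction_on with
  | empty => exact ⟨G₀, hG, hGe, fun _ _ => rfl, fun _ _ _ j hj => absurd hj (by simp)⟩
  | insert j S _ ih =>
    obtain ⟨G, h1, h2, h3, h4⟩ := ih
    obtain ⟨y, hy⟩ := perturb_step k G h1 h2 η hη hηi j
    refine ⟨fun z i => G z i - (η z : ℂ) * z j ^ k i * y i, ?_, ?_, ?_, ?_⟩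
    · refine contDiff_pi.2 fun i => ?_
      have a1 : ContDiff ℝ 1 (fun z => G z i) := contDiff_pi.1 h1 i
      have a2 : ContDiff ℝ 1 (fun z => (η z : ℂ)) := Complex.ofRealCLM.contDiff.comp hη
      have a3 : ContDiff ℝ 1 (fun z : ι → ℂ => z j ^ k i) := (contDiff_apply ℝ ℂ j).pow _
      exact a1.sub ((a2.mul a3).mul contDiff_const)
    · intro c hc z i
      simp only [h2 c hc, hηi c hc, Pi.smul_apply, smul_eq_mul, mul_pow]
      ring
    · intro z hz
      funext i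
      simp [hz, h3 z hz]
    · intro z hz h0
      have hzj : z j = 0 := by
        by_contra hzj
        obtain ⟨i, hi⟩ := hy z hz hzj
        exact hi (sub_eq_zero.1 (congrFun h0 i))
      have hG0 : G z = 0 := by
        funext i
        have := congrFun h0 i
        simpa [hzj, (hk i).ne'] using this
      intro j' hj'
      rcases Finset.mem_insert.1 hj' with rfl | hj'
      · exact hzj
      · exact h4 z hz hG0 j' hj'

theorem exists_pos_le_norm {X Y : Type*} [TopologicalSpace X] [NormedAddCommGroup Y] {K : Set X}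
    (hK : IsCompact K) {f : X → Y} (hf : Continuous f) (h : ∀ x ∈ K, f x ≠ 0) :
    ∃ δ > 0, ∀ x ∈ K, δ ≤ ‖f x‖ := by
  rcases K.eq_empty_or_nonempty with rfl | hne
  · exact ⟨1, one_pos, by simp⟩
  · obtain ⟨x, hx, hmin⟩ := hK.exists_isMinOn hne hf.norm.continuousOn
    exact ⟨‖f x‖, norm_pos_iff.2 (h x hx), fun y hy => hmin hy⟩

/-- Borsuk-Ulam theorem for the circle, on the boundary of an invariant neighbourhood of `0`. -/
theorem circle_borsuk_ulam {ι : Type*} [Fintype ι] (k : ι → ℕ) (hk : ∀ i, 0 < k i)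
    (g : (ι → ℂ) → (ι → ℂ)) (hg : ContDiff ℝ 1 g)
    (hge : ∀ c : ℂ, ‖c‖ = 1 → ∀ z i, g (c • z) i = c ^ k i * g z i)
    (i₀ : ι) (h0 : ∀ z, g z i₀ = 0)
    (θ : (ι → ℂ) → ℝ) (hθ : ContDiff ℝ 1 θ) (hθc : HasCompactSupport θ)
    (hθi : ∀ c : ℂ, ‖c‖ = 1 → ∀ z, θ (c • z) = θ z) (hθ0 : θ 0 ≠ 0) :
    ∃ z ∈ tsupport θ, θ z = 0 ∧ g z = 0 := by
  classical
  by_contra hcon
  push Not at hcon
  set K := tsupport θ with hKdef
  have hK : IsCompact K := hθc
  set r : (ι → ℂ) → ℝ := fun z => ∑ i, ((z i).re ^ 2 + (z i).im ^ 2) with hr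
  have hrn : ∀ z, r z = ∑ i, ‖z i‖ ^ 2 := fun z => by
    simp only [hr, Complex.sq_norm, Complex.normSq_apply]
    simp only [sq]
  have hrc : ContDiff ℝ 1 r := by
    refine ContDiff.sum fun i _ => ?_
    have a1 : ContDiff ℝ 1 (fun z : ι → ℂ => (z i).re) :=
      Complex.reCLM.contDiff.comp (contDiff_apply ℝ ℂ i)
    have a2 : ContDiff ℝ 1 (fun z : ι → ℂ => (z i).im) :=
      Complex.imCLM.contDiff.comp (contDiff_apply ℝ ℂ i)
    exact (a1.pow 2).add (a2.pow 2)
  have hri : ∀ c : ℂ, ‖c‖ = 1 → ∀ z, r (c • z) = r z := by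
    intro c hc z
    simp only [hrn, Pi.smul_apply, smul_eq_mul, norm_mul, hc, one_mul]
  have hr0 : r 0 = 0 := by simp [hrn]
  obtain ⟨ρ, hρ, hρθ⟩ : ∃ ρ > 0, ∀ z : ι → ℂ, ‖z‖ < ρ → θ z ≠ 0 := by
    have := hθ.continuous.continuousAt.eventually_ne hθ0
    obtain ⟨ρ, hρ, h⟩ := Metric.eventually_nhds_iff.1 this
    exact ⟨ρ, hρ, fun z hz => h (by simpa using hz)⟩
  set ε : ℝ := ρ ^ 2 / 3 with hε
  have hε0 : 0 < ε := by positivity
  have hsmall : ∀ z, r z ≤ 2 * ε → θ z ≠ 0 := by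
    intro z hz
    apply hρθ
    rw [pi_norm_lt_iff hρ]
    intro i
    have h1 : ‖z i‖ ^ 2 ≤ r z := by
      rw [hrn]
      exact Finset.single_le_sum (f := fun i => ‖z i‖ ^ 2) (fun _ _ => sq_nonneg _)
        (Finset.mem_univ i)
    have h2 : ‖z i‖ ^ 2 < ρ ^ 2 := by nlinarith [sq_nonneg ρ]
    exact lt_of_pow_lt_pow_left₀ 2 hρ.le h2
  set β : (ι → ℂ) → ℝ := fun z => Real.smoothTransition ((2 * ε - r z) / ε) with hβ
  have hβc : ContDiff ℝ 1 β :=
    Real.smoothTransition.contDiff.comp ((contDiff_const.sub hrc).div_const ε)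
  have hβ1 : ∀ z, r z ≤ ε → β z = 1 := fun z hz =>
    Real.smoothTransition.one_of_one_le (by rw [le_div_iff₀ hε0]; linarith)
  have hβ0 : ∀ z, θ z = 0 → β z = 0 := fun z hz => by
    apply Real.smoothTransition.zero_of_nonpos
    have : 2 * ε < r z := by
      by_contra h
      exact hsmall z (not_lt.1 h) hz
    exact div_nonpos_of_nonpos_of_nonneg (by linarith) hε0.le
  set η : (ι → ℂ) → ℝ := fun z => θ z * expNegInvGlue (r z - ε) with hη
  have hηc : ContDiff ℝ 1 η := hθ.mul (expNegInvGlue.contDiff.comp (hrc.sub contDiff_const))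
  have hηi : ∀ c : ℂ, ‖c‖ = 1 → ∀ z, η (c • z) = η z := by
    intro c hc z
    simp only [hη, hθi c hc, hri c hc]
  have hη0 : ∀ z, η z = 0 ↔ θ z = 0 ∨ r z ≤ ε := by
    intro z
    simp only [hη, mul_eq_zero, expNegInvGlue.zero_iff_nonpos, sub_nonpos]
  set σ : (ι → ℂ) → (ι → ℂ) := fun z i => z i ^ k i with hσ
  have hσc : ContDiff ℝ 1 σ := contDiff_pi.2 fun i => (contDiff_apply ℝ ℂ i).pow _
  set G₀ : (ι → ℂ) → (ι → ℂ) := fun z => (1 - β z) • g z + β z • σ z with hG₀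
  have hG₀c : ContDiff ℝ 1 G₀ := ((contDiff_const.sub hβc).smul hg).add (hβc.smul hσc)
  have hG₀e : ∀ c : ℂ, ‖c‖ = 1 → ∀ z i, G₀ (c • z) i = c ^ k i * G₀ z i := by
    intro c hc z i
    simp only [hG₀, hβ, hσ, hri c hc, Pi.add_apply, Pi.smul_apply, hge c hc, smul_eq_mul,
      Complex.real_smul, mul_pow]
    ring
  obtain ⟨G, hGc, -, hG1, hG2⟩ := perturb k hk G₀ hG₀c hG₀e η hηc hηi Finset.univ
  have hGne : ∀ z, η z ≠ 0 → G z ≠ 0 := by
    intro z hz h
    have : z = 0 := funext fun j => hG2 z hz h j (Finset.mem_univ j)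
    exact hz ((hη0 z).2 (Or.inr (by rw [this, hr0]; exact hε0.le)))
  have hGσ : ∀ z, r z ≤ ε → G z = σ z := by
    intro z hz
    rw [hG1 z ((hη0 z).2 (Or.inr hz))]
    simp [hG₀, hβ1 z hz]
  have hGg : ∀ z, θ z = 0 → G z = g z := by
    intro z hz
    rw [hG1 z ((hη0 z).2 (Or.inl hz))]
    simp [hG₀, hβ0 z hz]
  set f : (ι → ℂ) → (ι → ℂ) := fun z => g z + θ z • (Pi.single i₀ 1 : ι → ℂ) with hf
  have hfc : ContDiff ℝ 1 f := hg.add (hθ.smul contDiff_const)
  have hfne : ∀ z ∈ K, f z ≠ 0 := by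
    intro z hz h
    by_cases hθz : θ z = 0
    · apply hcon z hz hθz
      simpa [hf, hθz] using h
    · have := congrFun h i₀
      simp [hf, h0, hθz] at this
  have hK' : IsCompact (K ∩ {z | ε ≤ r z}) :=
    hK.inter_right (isClosed_le continuous_const hrc.continuous)
  have hGne' : ∀ z ∈ K ∩ {z | ε ≤ r z}, G z ≠ 0 := by
    intro z hz
    by_cases hηz : η z = 0
    · rcases (hη0 z).1 hηz with h | h
      · rw [hGg z h]; exact hcon z hz.1 h
      · rw [hGσ z h]
        intro h'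
        have : z = 0 := funext fun i => pow_eq_zero_iff (hk i).ne' |>.1 (congrFun h' i)
        have h2 : ε ≤ r z := hz.2
        rw [this, hr0] at h2
        linarith
    · exact hGne z hηz
  obtain ⟨δ₁, hδ₁, H₁⟩ := exists_pos_le_norm hK hfc.continuous hfne
  obtain ⟨δ₂, hδ₂, H₂⟩ := exists_pos_le_norm hK' hGc.continuous hGne'
  obtain ⟨ψ, hψc, hψ0, hψ1, hψ2⟩ := exists_psi (ι := ι) (min δ₁ δ₂) (lt_min hδ₁ hδ₂)
  have key := integral_det_eq_of_eq_off volume (hψc.comp hGc) (hψc.comp hfc) hK (by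
    intro z hz
    have hθz : θ z = 0 := image_eq_zero_of_notMem_tsupport hz
    simp [hGg z hθz, hf, hθz])
  have hcomp : ∀ u : (ι → ℂ) → (ι → ℂ), ContDiff ℝ 1 u → ∀ z,
      (fderiv ℝ (ψ ∘ u) z).det = (fderiv ℝ ψ (u z)).det * (fderiv ℝ u z).det := by
    intro u hu z
    rw [fderiv_comp z (hψc.differentiable (by simp) _) (hu.differentiable (by simp) _)]
    exact LinearMap.det_comp _ _
  have hzero : ∫ x in K, (fderiv ℝ (ψ ∘ f) x).det = 0 := by
    apply setIntegral_eq_zero_of_forall_eq_zero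
    intro z hz
    rw [hcomp f hfc, hψ1 _ ((min_le_left _ _).trans (H₁ z hz)), zero_mul]
  have hU : IsOpen {z | r z < ε} := isOpen_lt hrc.continuous continuous_const
  have hDG : ∀ z, r z < ε → (fderiv ℝ G z).det =
      ∏ i, Complex.normSq ((k i : ℂ) * z i ^ (k i - 1)) := by
    intro z hz
    rw [← det_fderiv_sigma]
    congr 1
    apply Filter.EventuallyEq.fderiv_eq
    filter_upwards [hU.mem_nhds hz] with y hy
    exact hGσ y (le_of_lt hy)
  have hdet : Continuous (fun A : (ι → ℂ) →L[ℝ] (ι → ℂ) => A.det) :=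
    ContinuousLinearMap.continuous_det
  have hFc : Continuous fun x => (fderiv ℝ (ψ ∘ G) x).det :=
    hdet.comp ((hψc.comp hGc).continuous_fderiv (by simp))
  have hpos : 0 < ∫ x in K, (fderiv ℝ (ψ ∘ G) x).det := by
    rw [setIntegral_pos_iff_support_of_nonneg_ae]
    · have hev : ∀ᶠ t : ℝ in 𝓝[>] 0, r (fun _ => (t : ℂ)) < ε ∧
          ‖G (fun _ => (t : ℂ))‖ < min δ₁ δ₂ / 2 := by
        have hc : Continuous fun t : ℝ => (fun _ : ι => (t : ℂ)) := by fun_prop
        have e0 : (fun _ : ι => ((0 : ℝ) : ℂ)) = 0 := by funext; simp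
        have hG0 : G 0 = 0 := by
          rw [hGσ 0 (by rw [hr0]; exact hε0.le)]
          funext i
          simp [hσ, (hk i).ne']
        apply Filter.Eventually.filter_mono nhdsWithin_le_nhds
        apply Filter.Eventually.and
        · apply (hrc.continuous.comp hc).continuousAt.eventually_lt continuousAt_const
          simp only [Function.comp, e0, hr0, hε0]
        · apply (hGc.continuous.comp hc).norm.continuousAt.eventually_lt continuousAt_const
          simp only [Function.comp, e0, hG0, norm_zero]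
          have := lt_min hδ₁ hδ₂
          positivity
      obtain ⟨t, ⟨ht1, ht2⟩, ht0⟩ := (hev.and self_mem_nhdsWithin).exists
      have ht0' : (t : ℂ) ≠ 0 := by exact_mod_cast (ne_of_gt ht0)
      have hopen : IsOpen (Function.support (fun x => (fderiv ℝ (ψ ∘ G) x).det) ∩ {z | r z < ε}) :=
        hFc.isOpen_support.inter hU
      refine lt_of_lt_of_le (hopen.measure_pos volume ⟨fun _ => (t : ℂ), ?_, ht1⟩)
        (measure_mono (inter_subset_inter_right _ ?_))
      · rw [Function.mem_support, hcomp G hGc, hDG _ ht1]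
        refine mul_ne_zero (hψ2 _ ht2).ne' (Finset.prod_ne_zero_iff.2 fun i _ => ?_)
        rw [Ne, map_eq_zero]
        exact mul_ne_zero (by exact_mod_cast (hk i).ne') (pow_ne_zero _ ht0')
      · intro z hz
        have hz' : r z < ε := hz
        exact subset_tsupport _ (hsmall z (by linarith))
    · rw [EventuallyLE, ae_restrict_iff' hK.measurableSet]
      refine Eventually.of_forall fun z hz => ?_
      simp only [Pi.zero_apply]
      rw [hcomp G hGc]
      by_cases hz' : r z < ε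
      · rw [hDG z hz']
        exact mul_nonneg (hψ0 _) (Finset.prod_nonneg fun i _ => Complex.normSq_nonneg _)
      · rw [hψ1 _ ((min_le_right _ _).trans (H₂ z ⟨hz, not_lt.1 hz'⟩)), zero_mul]
    · exact hFc.continuousOn.integrableOn_compact hK
  rw [key, hzero] at hpos
  exact lt_irrefl _ hpos

end Pool.Agent.Lib.helper9
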